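import Pool.Agent.MP_81f5b7_pr.H66.Spec

/-! Row SPR: sprinkling on a chain. -/

set_option linter.unusedSectionVars false

namespace Pool.Agent.MP_81f5b7_pr.H66

open Finset
open scoped Classical

namespace SPR

variable {V : Type} [Fintype V] [DecidableEq V]

/-- the number of offered pairs that lie in `P` -/
def cnt {ι : Type} [DecidableEq ι] (P : Finset ι) (l : List (Finset ι)) : ℕ :=
  (l.map fun B => (B ∩ P).card).sum

theorem EL_cnt {ι : Type} [DecidableEq ι] [Fintype ι] (q ρ : ℝ) (P : Finset ι) (m : ℕ) :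
    EL q m (fun l => ρ ^ cnt P l) = ((1 - q + q * ρ) ^ P.card) ^ m := by
  induction m with
  | zero => simp [cnt]
  | succ m ih =>
    rw [EL_succ]
    have e : ∀ B : Finset ι, EL q m (fun l => ρ ^ cnt P (B :: l)) =
        ρ ^ (B ∩ P).card * ((1 - q + q * ρ) ^ P.card) ^ m := by
      intro B
      rw [← ih, ← EL_mul]
      refine EL_congr fun l _ => ?_
      simp [cnt, pow_add]
    simp only [e]
    rw [Ex_mul', Ex_pow (subset_univ P), pow_succ']

theorem PL_cnt {ι : Type} [DecidableEq ι] [Fintype ι] {q : ℝ} (h0 : 0 ≤ q) (h1 : q ≤ 1)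
    (P : Finset ι) (m : ℕ) (x : ℝ) :
    PL q m (fun l => (cnt P l : ℝ) ≤ x) ≤ Real.exp (x - q * m * P.card / 2) := by
  refine (PL_markov (f := fun l => Real.exp (-1) ^ cnt P l) h0 h1 (Real.exp_pos (-x))
    (fun l _ => by positivity) fun l _ h => ?_).trans ?_
  · rw [← Real.exp_nat_mul]
    exact Real.exp_le_exp.2 (by linarith)
  · rw [EL_cnt, div_le_iff₀ (Real.exp_pos _), ← Real.exp_add, ← pow_mul]
    have e1 : Real.exp (-1) ≤ 1 / 2 := by
      rw [Real.exp_neg, one_div]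
      exact inv_anti₀ two_pos (by linarith [Real.add_one_le_exp 1])
    have e2 : 1 - q + q * Real.exp (-1) ≤ Real.exp (-(q / 2)) := by
      have := Real.add_one_le_exp (-(q / 2))
      nlinarith
    have e3 : 0 ≤ 1 - q + q * Real.exp (-1) := by
      have := Real.exp_pos (-1)
      nlinarith
    refine (pow_le_pow_left₀ e3 e2 _).trans (le_of_eq ?_)
    rw [← Real.exp_nat_mul]
    congr 1
    push_cast
    ring

theorem cnt_le (σ : V → C3) (P : Finset (Sym2 V)) (h : ∀ e ∈ P, ¬e.IsDiag ∧ ¬bi σ e)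
    (l : List (Finset (Sym2 V))) : cnt P l ≤ mono σ l := by
  unfold cnt mono
  refine List.sum_le_sum fun B _ => card_le_card fun e he => ?_
  rw [mem_inter] at he
  exact mem_filter.2 ⟨he.1, h e he.2⟩

/-- the state of the chain at place `i` -/
def st (v : ℕ → V) (a : ℕ → C3) (σ : V → C3) (i : ℕ) : Prop := i ≠ 0 ∧ σ (v i) = a i

/-- the places where the state changes -/
noncomputable def code (L : ℕ) (v : ℕ → V) (a : ℕ → C3) (σ : V → C3) : Finset ℕ :=
  (range L).filter fun i => ¬(st v a σ i ↔ st v a σ (i + 1))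

variable {τ : V → C3} {Z : Finset V} {Γ : Finset (Sym2 V)} {L : ℕ} {v : ℕ → V} {a : ℕ → C3}

theorem two (hc : Chain τ Z Γ L v a) {σ : V → C3} (hσ : σ ∈ S0 τ Z) {i : ℕ} (hi : i < L)
    (h : σ (v (i + 1)) ≠ a (i + 1)) : σ (v (i + 1)) = a i := by
  obtain ⟨h1, h2, h3, h4, -⟩ := hc.2 i hi
  have h5 := (mem_S0.1 hσ (v (i + 1))).2 h1
  rw [third h3 h5 h, third h3 h2 h4]

theorem st_eq {σ σ' : V → C3} (h : code L v a σ = code L v a σ') :
    ∀ i ≤ L, (st v a σ i ↔ st v a σ' i) := by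
  intro i
  induction i with
  | zero => simp [st]
  | succ i ih =>
    intro hi
    have h1 := ih (by omega)
    have h2 : i ∈ code L v a σ ↔ i ∈ code L v a σ' := by rw [h]
    simp only [code, mem_filter, mem_range, show i < L by omega, true_and] at h2
    tauto

theorem col_eq (hc : Chain τ Z Γ L v a) {σ σ' : V → C3} (hσ : σ ∈ S0 τ Z) (hσ' : σ' ∈ S0 τ Z)
    (h : code L v a σ = code L v a σ') {i : ℕ} (hi : i < L) :
    σ (v (i + 1)) = σ' (v (i + 1)) := by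
  have h1 := st_eq h (i + 1) hi
  simp only [st, ne_eq, Nat.add_eq_zero_iff, one_ne_zero, and_false, not_false_eq_true,
    true_and] at h1
  by_cases h2 : σ (v (i + 1)) = a (i + 1)
  · rw [h2, h1.1 h2]
  · rw [two hc hσ hi h2, two hc hσ' hi fun h3 => h2 (h1.2 h3)]

theorem changes (P : ℕ → Prop) (h0 : ¬P 0) (L : ℕ) :
    (((range L).filter fun i => ¬(P i ↔ P (i + 1))).card : ℝ) =
      2 * ((range L).filter fun i => P i ∧ ¬P (i + 1)).card + ind (P L) := by
  induction L with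
  | zero => simp [ind_neg h0]
  | succ L ih =>
    rw [card_filter_ind, card_filter_ind] at ih ⊢
    rw [sum_range_succ, sum_range_succ, ih]
    by_cases h1 : P L <;> by_cases h2 : P (L + 1) <;> simp [ind, h1, h2]
    ring

theorem desc_le (hc : Chain τ Z Γ L v a) {σ : V → C3} (hσ : σ ∈ S0 τ Z) :
    ((range L).filter fun i => st v a σ i ∧ ¬st v a σ (i + 1)).card ≤
      (Γ.filter fun e => ¬e.IsDiag ∧ ¬bi σ e).card := by
  refine card_le_card_of_injOn (fun i => s(v i, v (i + 1))) (fun i hi => ?_) fun i hi j hj e => ?_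
  · simp only [coe_filter, mem_range, Set.mem_ofPred_eq] at hi ⊢
    obtain ⟨hi, h1, h2⟩ := hi
    refine ⟨(hc.2 i hi).2.2.2.2, fun hd => ?_, ?_⟩
    · have := hc.1 (show i ∈ Set.Iic L from hi.le) (show i + 1 ∈ Set.Iic L from hi)
        (Sym2.mk_isDiag_iff.1 hd)
      omega
    · rw [bi_mk, not_not, h1.2, two hc hσ hi fun h3 => h2 ⟨by omega, h3⟩]
  · simp only [coe_filter, mem_range, Set.mem_ofPred_eq] at hi hj
    rcases Sym2.eq_iff.1 e with ⟨e1, -⟩ | ⟨e1, e2⟩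
    · exact hc.1 (show i ∈ Set.Iic L from hi.1.le) (show j ∈ Set.Iic L from hj.1.le) e1
    · have h1 := hc.1 (show i ∈ Set.Iic L from hi.1.le) (show j + 1 ∈ Set.Iic L from hj.1) e1
      have h2 := hc.1 (show i + 1 ∈ Set.Iic L from hi.1) (show j ∈ Set.Iic L from hj.1.le) e2
      omega

theorem code_le (hc : Chain τ Z Γ L v a) {σ : V → C3} (hσ : σ ∈ S0 τ Z) :
    ((code L v a σ).card : ℝ) ≤ 2 * (Γ.filter fun e => ¬e.IsDiag ∧ ¬bi σ e).card + 1 := by
  have h1 := changes (st v a σ) (by simp [st]) L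
  have h2 : (((range L).filter fun i => st v a σ i ∧ ¬st v a σ (i + 1)).card : ℝ) ≤
      (Γ.filter fun e => ¬e.IsDiag ∧ ¬bi σ e).card := by exact_mod_cast desc_le hc hσ
  have h3 := ind_le_one (st v a σ L)
  have h4 : ((code L v a σ).card : ℝ) = _ := h1
  linarith

theorem inj_succ (hc : Chain τ Z Γ L v a) {s : Finset ℕ} (hs : s ⊆ range L) :
    Set.InjOn (fun i => v (i + 1)) s := by
  intro i hi j hj e
  have := hc.1 (show i + 1 ∈ Set.Iic L from mem_range.1 (hs hi))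
    (show j + 1 ∈ Set.Iic L from mem_range.1 (hs hj)) e
  omega

theorem L_le (hc : Chain τ Z Γ L v a) : L ≤ Fintype.card V := by
  have := card_le_univ ((range L).image fun i => v (i + 1))
  rwa [card_image_of_injOn (inj_succ hc Subset.rfl), card_range] at this

/-- many pairs have one colour for all colourings with a given code -/
theorem pairs (hc : Chain τ Z Γ L v a) (hL : 12 ≤ (L : ℝ)) {σ₀ : V → C3} (h₀ : σ₀ ∈ S0 τ Z) :
    ∃ P : Finset (Sym2 V), (L : ℝ) ^ 2 / 24 ≤ P.card ∧ ∀ σ ∈ S0 τ Z,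
      code L v a σ = code L v a σ₀ → ∀ e ∈ P, ¬e.IsDiag ∧ ¬bi σ e := by
  obtain ⟨t, -, ht⟩ := exists_le_card_fiber_of_nsmul_le_card_of_maps_to (M := ℝ)
    (s := range L) (t := (univ : Finset C3)) (f := fun i => σ₀ (v (i + 1))) (b := (L : ℝ) / 3)
    (fun _ _ => mem_univ _) univ_nonempty (by simp; linarith)
  set W := ((range L).filter fun i => σ₀ (v (i + 1)) = t).image fun i => v (i + 1) with hW
  have hc' : ((L : ℝ) / 3) ≤ W.card := by
    rw [hW, card_image_of_injOn (inj_succ hc (filter_subset _ _))]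
    exact ht
  refine ⟨W.offDiag.image Sym2.mk.uncurry, ?_, fun σ hσ h e he => ?_⟩
  · rw [Sym2.card_image_offDiag, Nat.cast_choose_two]
    nlinarith
  · obtain ⟨⟨x, y⟩, hp, rfl⟩ := mem_image.1 he
    obtain ⟨hx, hy, hxy⟩ := mem_offDiag.1 hp
    obtain ⟨i, hi, rfl⟩ := mem_image.1 hx
    obtain ⟨j, hj, rfl⟩ := mem_image.1 hy
    rw [mem_filter, mem_range] at hi hj
    refine ⟨fun hd => hxy (Sym2.mk_isDiag_iff.1 hd), ?_⟩
    change ¬bi σ s(v (i + 1), v (j + 1))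
    rw [bi_mk, not_not, col_eq hc hσ h₀ h hi.1, col_eq hc hσ h₀ h hj.1, hi.2, hj.2]

theorem main (hc : Chain τ Z Γ L v a) (hL : 12 ≤ (L : ℝ)) {q : ℝ} (h0 : 0 ≤ q) (h1 : q ≤ 1)
    (m : ℕ) (x : ℝ) {y : ℝ} (hy0 : 0 < y) (hy1 : y ≤ 1) :
    PL q m (fun l => ∃ σ ∈ S0 τ Z,
      ((Γ.filter fun e => ¬e.IsDiag ∧ ¬bi σ e).card + mono σ l : ℝ) ≤ x) ≤
      (1 + y) ^ L / y ^ (2 * x + 1) * Real.exp (x - q * m * L ^ 2 / 48) := by
  set U := (range L).powerset.filter fun A => (A.card : ℝ) ≤ 2 * x + 1 with hU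
  refine (PL_mono (Q := fun l => ∃ A ∈ U, ∃ σ ∈ S0 τ Z, code L v a σ = A ∧ (mono σ l : ℝ) ≤ x)
    h0 h1 fun l _ hl => ?_).trans ((PL_exists h0 h1 _ _).trans ?_)
  · obtain ⟨σ, hσ, h⟩ := hl
    have e1 : (0 : ℝ) ≤ mono σ l := Nat.cast_nonneg _
    have e2 : (0 : ℝ) ≤ (Γ.filter fun e => ¬e.IsDiag ∧ ¬bi σ e).card := Nat.cast_nonneg _
    refine ⟨_, mem_filter.2 ⟨mem_powerset.2 (filter_subset _ _), ?_⟩, σ, hσ, rfl, by linarith⟩
    have := code_le hc hσ
    change ((code L v a σ).card : ℝ) ≤ _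
    linarith
  · refine (sum_le_card_nsmul _ _ (Real.exp (x - q * m * L ^ 2 / 48)) fun A _ => ?_).trans ?_
    · by_cases hA : ∃ σ₀ ∈ S0 τ Z, code L v a σ₀ = A
      · obtain ⟨σ₀, h₀, rfl⟩ := hA
        obtain ⟨P, hP, hP'⟩ := pairs hc hL h₀
        refine (PL_mono (Q := fun l => (cnt P l : ℝ) ≤ x) h0 h1
          fun l _ hl => ?_).trans ((PL_cnt h0 h1 P m x).trans ?_)
        · obtain ⟨σ, hσ, h, h'⟩ := hl
          exact le_trans (by exact_mod_cast cnt_le σ P (hP' σ hσ h) l) h'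
        · have := mul_le_mul_of_nonneg_left hP (mul_nonneg h0 (Nat.cast_nonneg m))
          exact Real.exp_le_exp.2 (by linarith)
      · rw [PL_false fun l _ ⟨σ, hσ, h, _⟩ => hA ⟨σ, hσ, h⟩]
        exact (Real.exp_pos _).le
    · rw [nsmul_eq_mul]
      refine mul_le_mul_of_nonneg_right ?_ (Real.exp_pos _).le
      have := card_small (range L) (k := 2 * x + 1) hy0 hy1
      rwa [card_range] at this

end SPR

open SPR in
theorem rowSPR : SSPR := by
  intro c θ hc hθ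
  obtain ⟨μ, hμd⟩ : ∃ μ, μ = θ * c ^ 2 / 48 := ⟨_, rfl⟩
  have hμ : 0 < μ := by rw [hμd]; positivity
  obtain ⟨y, hy0, hy1, hyμ⟩ : ∃ y : ℝ, 0 < y ∧ y ≤ 1 ∧ y ≤ μ / 4 :=
    ⟨min 1 (μ / 4), lt_min one_pos (by positivity), min_le_left _ _, min_le_right _ _⟩
  obtain ⟨Λ, hΛd⟩ : ∃ Λ, Λ = -Real.log y := ⟨_, rfl⟩
  have hΛ : 0 ≤ Λ := by
    rw [hΛd]
    linarith [Real.log_nonpos hy0.le hy1]
  obtain ⟨r, hr0, hr⟩ : ∃ r : ℝ, 0 < r ∧ r * (1 + 2 * Λ) = μ / 4 :=
    ⟨μ / 4 / (1 + 2 * Λ), by positivity, by field_simp⟩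
  refine ⟨r, hr0, fun κ hκ => ?_⟩
  obtain ⟨N, hN⟩ := exists_nat_ge (max 2 (max (12 / c) (2 * (Λ - Real.log κ) / μ)))
  refine ⟨N, fun V _ _ τ Z q m Γ L v a hn hq ht hL hch => ?_⟩
  have hn' : (N : ℝ) ≤ Fintype.card V := by exact_mod_cast hn
  set n : ℝ := (Fintype.card V : ℝ) with hnd
  have n1 : 2 ≤ n := ((le_max_left _ _).trans hN).trans hn'
  have n2 : 12 / c ≤ n := (((le_max_left _ _).trans (le_max_right _ _)).trans hN).trans hn'
  have n3 : 2 * (Λ - Real.log κ) / μ ≤ n :=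
    (((le_max_right _ _).trans (le_max_right _ _)).trans hN).trans hn'
  rw [div_le_iff₀ hc] at n2
  rw [div_le_iff₀ hμ] at n3
  obtain ⟨h0, h1, -⟩ := hq.le (by rw [hnd] at n1; exact_mod_cast n1)
  have hLn : (L : ℝ) ≤ n := by rw [hnd]; exact_mod_cast L_le hch
  refine (main hch (by linarith) h0 h1 m (r * n) hy0 hy1).trans ?_
  have e1 : (1 + y) ^ L ≤ Real.exp (y * n) := by
    refine (pow_le_pow_left₀ (by linarith) (show 1 + y ≤ Real.exp y by
      linarith [Real.add_one_le_exp y]) L).trans ?_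
    rw [← Real.exp_nat_mul]
    exact Real.exp_le_exp.2 (by nlinarith)
  have e2 : y ^ (2 * (r * n) + 1) = Real.exp (-(Λ * (2 * (r * n) + 1))) := by
    rw [Real.rpow_def_of_pos hy0, hΛd]
    congr 1
    ring
  have e3 : μ * n ≤ q * m * L ^ 2 / 48 := by
    have h2 : (c * n) ^ 2 ≤ (L : ℝ) ^ 2 := pow_le_pow_left₀ (by positivity) hL 2
    have h3 : θ ≤ m * q * n := ht
    have h4 : 0 ≤ q * m := mul_nonneg h0 (Nat.cast_nonneg m)
    have h5 := mul_le_mul_of_nonneg_left h2 h4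
    have h6 := mul_le_mul_of_nonneg_right h3 (show 0 ≤ c ^ 2 * n by positivity)
    rw [hμd]
    nlinarith
  rw [e2]
  refine (mul_le_mul_of_nonneg_right (div_le_div_of_nonneg_right e1 (Real.exp_pos _).le)
    (Real.exp_pos _).le).trans ?_
  rw [← Real.exp_sub, ← Real.exp_add, ← Real.le_log_iff_exp_le hκ]
  have e4 := mul_le_mul_of_nonneg_right hyμ (show 0 ≤ n by linarith)
  have e5 : r * (1 + 2 * Λ) * n = μ / 4 * n := by rw [hr]
  nlinarith

end Pool.Agent.MP_81f5b7_pr.H66
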